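import Pool.Agent.Q30.FK.Stm2

/-!
# The cohomology rings are graded
-/

namespace Q121.FK

open Q30.FK Finset

variable {k : Type} [Field k] [CharP k 2]

/-- The component of degree `n` of a cochain. -/
def prC (n : ℕ) : Ch k →+ Ch k where
  toFun F := ⟨fun X m g => if m = n then F.1 X m g else 0, by
    obtain ⟨F, F1, F2, N, F3⟩ := F
    refine ⟨?_, ?_, N, ?_⟩
    · intro X Y φ m g
      change φ (if m = n then F X m g else 0) = if m = n then F Y m _ else 0
      split_ifs
      · exact F1 X Y φ m g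
      · exact map_zero φ
    · intro X m g g' h
      change (if m = n then F X m g else 0) = if m = n then F X m g' else 0
      rw [F2 X m g g' h]
    · intro m hm X g
      change (if m = n then F X m g else 0) = 0
      rw [F3 m hm, ite_self]⟩
  map_zero' := ch_ext (fun X m g => by
    change (if m = n then (0 : X.A) else 0) = 0
    rw [ite_self])
  map_add' F G := ch_ext (fun X m g => by
    change (if m = n then F.1 X m g + G.1 X m g else 0) =
      (if m = n then F.1 X m g else 0) + (if m = n then G.1 X m g else 0)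
    split_ifs
    · rfl
    · rw [add_zero])

theorem prC_apply (n : ℕ) (F : Ch k) (X : Alg k) (m : ℕ) (g : ℕ → Bor X) :
    (prC n F).1 X m g = if m = n then F.1 X m g else 0 := rfl

theorem prC_mem {E : ∀ X : Alg k, Set (Bor X)} (n : ℕ) {F : Ch k} (hF : F ∈ inv k E) :
    prC n F ∈ inv k E := by
  intro X h hh m g
  rw [prC_apply, prC_apply, hF X h hh]

theorem prC_hom (n : ℕ) (F : Ch k) : Hom n (prC n F) := by
  intro X m g hm
  rw [prC_apply, if_neg hm]

theorem prC_of_hom {n : ℕ} {F : Ch k} (hF : Hom n F) : prC n F = F := by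
  refine ch_ext (fun X m g => ?_)
  rw [prC_apply]
  split_ifs with h
  · rfl
  · exact (hF X m g h).symm

theorem prC_d_succ (n : ℕ) (F : Ch k) : prC (n + 1) (dCh F) = dCh (prC n F) := by
  refine ch_ext (fun X m g => ?_)
  rw [prC_apply]
  cases m with
  | zero => rw [dCh_zero, dCh_zero, ite_self]
  | succ m =>
    rw [dCh_succ, dCh_succ]
    simp only [prC_apply]
    by_cases h : m = n
    · rw [if_pos (by omega)]
      exact sum_congr rfl (fun l _ => by rw [if_pos h])
    · rw [if_neg (by omega)]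
      exact (sum_eq_zero (fun l _ => by rw [if_neg h])).symm

theorem prC_d_zero (F : Ch k) : prC 0 (dCh F) = 0 := by
  refine ch_ext (fun X m g => ?_)
  rw [prC_apply, coe_zero_apply]
  split_ifs with h
  · subst h
    rfl
  · rfl

theorem prC_prC (m n : ℕ) (F : Ch k) : prC m (prC n F) = if m = n then prC n F else 0 := by
  refine ch_ext (fun X l g => ?_)
  rw [prC_apply, prC_apply]
  by_cases h : m = n
  · subst h
    rw [if_pos rfl, prC_apply]
    split_ifs <;> rfl
  · rw [if_neg h, coe_zero_apply]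
    split_ifs with h1 h2
    · exact absurd (h1.symm.trans h2) h
    · rfl
    · rfl

theorem prC_mul {m : ℕ} (n : ℕ) {F : Ch k} (hF : Hom m F) (G : Ch k) :
    prC (m + n) (F * G) = F * prC n G := by
  refine ch_ext (fun X l g => ?_)
  rw [prC_apply, coe_mul_apply, coe_mul_apply]
  split_ifs with h
  · refine sum_congr rfl (fun p hp => ?_)
    rw [HasAntidiagonal.mem_antidiagonal] at hp
    rw [prC_apply]
    split_ifs with h1
    · rfl
    · rw [hF X p.1 _ (by omega), zero_mul, zero_mul]
  · symm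
    refine sum_eq_zero (fun p hp => ?_)
    rw [HasAntidiagonal.mem_antidiagonal] at hp
    rw [prC_apply]
    split_ifs with h1
    · rw [hF X p.1 _ (by omega), zero_mul]
    · rw [mul_zero]

theorem prC_mul_lt {m j : ℕ} (hj : j < m) {F : Ch k} (hF : Hom m F) (G : Ch k) :
    prC j (F * G) = 0 := by
  refine ch_ext (fun X l g => ?_)
  rw [prC_apply, coe_mul_apply, coe_zero_apply]
  split_ifs with h
  · refine sum_eq_zero (fun p hp => ?_)
    rw [HasAntidiagonal.mem_antidiagonal] at hp
    rw [hF X p.1 _ (by omega), zero_mul]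
  · rfl

theorem sum_prC (F : Ch k) : ∃ N, F = ∑ n ∈ range N, prC n F := by
  obtain ⟨N, hN⟩ := F.2.2.2
  refine ⟨N + 1, ch_ext (fun X m g => ?_)⟩
  have e : ∀ s : Finset ℕ, (∑ n ∈ s, prC n F).1 X m g = ∑ n ∈ s, (prC n F).1 X m g := by
    intro s
    induction s using Finset.induction_on with
    | empty => rw [sum_empty, sum_empty, coe_zero_apply]
    | insert a s ha ih => rw [sum_insert ha, sum_insert ha, coe_add_apply, ih]
  rw [e]
  simp only [prC_apply]
  by_cases h : m < N + 1
  · rw [sum_ite_eq, if_pos (mem_range.mpr h)]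
  · rw [sum_ite_eq, if_neg (by rw [mem_range]; exact h)]
    exact hN m (by omega) X g

theorem prC_closed (n : ℕ) {F : Ch k} (hd : dCh F = 0) : dCh (prC n F) = 0 := by
  rw [← prC_d_succ, hd, map_zero]

theorem cl_congr {E : ∀ X : Alg k, Set (Bor X)} {F G : Ch k} {hF : F ∈ inv k E}
    {hd : dCh F = 0} {hG : G ∈ inv k E} {hd' : dCh G = 0} (h : F = G) :
    cl E F hF hd = cl E G hG hd' := by
  subst h
  rfl

theorem cl_zero (E : ∀ X : Alg k, Set (Bor X)) :
    cl E (0 : Ch k) (zero_mem _) (map_zero _) = 0 :=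
  cl_eq_zero.mpr ⟨0, zero_mem _, map_zero _⟩

theorem prC_wd {E : ∀ X : Alg k, Set (Bor X)} (n : ℕ) {F G : Ch k} {hF : F ∈ inv k E}
    {hd : dCh F = 0} {hG : G ∈ inv k E} {hd' : dCh G = 0}
    (h : cl E F hF hd = cl E G hG hd') :
    cl E (prC n F) (prC_mem n hF) (prC_closed n hd) =
      cl E (prC n G) (prC_mem n hG) (prC_closed n hd') := by
  rw [cl_eq] at h ⊢
  obtain ⟨y, hy, hy'⟩ := h
  cases n with
  | zero =>
    refine ⟨0, zero_mem _, ?_⟩
    rw [map_zero, ← map_sub, ← hy', prC_d_zero]
  | succ n =>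
    refine ⟨prC n y, prC_mem n hy, ?_⟩
    rw [← prC_d_succ, hy', map_sub]

/-- The projection onto the component of degree `n` of the cohomology ring. -/
noncomputable def prH (E : ∀ X : Alg k, Set (Bor X)) (n : ℕ) (x : HH k E) : HH k E :=
  cl E (prC n (cl_surj x).choose) (prC_mem n (cl_surj x).choose_spec.choose)
    (prC_closed n (cl_surj x).choose_spec.choose_spec.choose)

theorem prH_cl {E : ∀ X : Alg k, Set (Bor X)} (n : ℕ) {F : Ch k} (hF : F ∈ inv k E)
    (hd : dCh F = 0) :
    prH E n (cl E F hF hd) = cl E (prC n F) (prC_mem n hF) (prC_closed n hd) :=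
  prC_wd n (cl_surj (cl E F hF hd)).choose_spec.choose_spec.choose_spec.symm

theorem prH_add (E : ∀ X : Alg k, Set (Bor X)) (n : ℕ) (x y : HH k E) :
    prH E n (x + y) = prH E n x + prH E n y := by
  obtain ⟨F, hF, hd, rfl⟩ := cl_surj x
  obtain ⟨G, hG, hd', rfl⟩ := cl_surj y
  rw [cl_add, prH_cl, prH_cl, prH_cl, cl_add]
  exact cl_congr (map_add _ _ _)

theorem cl_sum {E : ∀ X : Alg k, Set (Bor X)} (s : Finset ℕ) (F : ℕ → Ch k)
    (hF : ∀ n, F n ∈ inv k E) (hd : ∀ n, dCh (F n) = 0) :
    ∑ n ∈ s, cl E (F n) (hF n) (hd n) = cl E (∑ n ∈ s, F n) (sum_mem (fun n _ => hF n))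
      (by rw [map_sum]; exact sum_eq_zero (fun n _ => hd n)) := by
  induction s using Finset.induction_on with
  | empty =>
    rw [sum_empty, ← cl_zero]
    exact cl_congr sum_empty.symm
  | insert a s ha ih =>
    rw [sum_insert ha, ih, cl_add]
    exact cl_congr (sum_insert ha).symm

/-- A homogeneous element is the class of a homogeneous cocycle. -/
theorem hom_rep {E : ∀ X : Alg k, Set (Bor X)} {n : ℕ} {x : HH k E} (hx : prH E n x = x) :
    ∃ (F : Ch k) (hF : F ∈ inv k E) (hd : dCh F = 0), Hom n F ∧ x = cl E F hF hd := by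
  obtain ⟨F, hF, hd, rfl⟩ := cl_surj x
  rw [prH_cl] at hx
  exact ⟨prC n F, prC_mem n hF, prC_closed n hd, prC_hom n F, hx.symm⟩

/-- The cohomology rings are graded. -/
theorem gr : P_GR := by
  intro k _ _ E
  have add' : ∀ n, ∀ x y : HH k E, prH E n (x + y) = prH E n x + prH E n y := prH_add E
  refine ⟨⟨fun n => AddMonoidHom.mk' (prH E n) (add' n), ?_, ?_, ?_, ?_⟩, ?_, ?_⟩
  · intro x
    change ∃ N, x = ∑ n ∈ range N, prH E n x
    obtain ⟨F, hF, hd, rfl⟩ := cl_surj x
    obtain ⟨N, hN⟩ := sum_prC F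
    refine ⟨N, ?_⟩
    have e : ∀ n ∈ range N, prH E n (cl E F hF hd) =
        cl E (prC n F) (prC_mem n hF) (prC_closed n hd) := fun n _ => prH_cl n hF hd
    rw [sum_congr rfl e, cl_sum (range N) (fun n => prC n F) (fun n => prC_mem n hF)
      (fun n => prC_closed n hd)]
    exact cl_congr hN
  · intro m n x
    change prH E m (prH E n x) = if m = n then prH E n x else 0
    obtain ⟨F, hF, hd, rfl⟩ := cl_surj x
    rw [prH_cl, prH_cl]
    have e := prC_prC m n F
    split_ifs with h
    · rw [if_pos h] at e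
      exact cl_congr e
    · rw [if_neg h] at e
      rw [← cl_zero]
      exact cl_congr e
  · intro m n x y hx
    change prH E m x = x at hx
    change prH E (m + n) (x * y) = x * prH E n y
    obtain ⟨F, hF, hd, hh, rfl⟩ := hom_rep hx
    obtain ⟨G, hG, hd', rfl⟩ := cl_surj y
    rw [cl_mul, prH_cl, prH_cl, cl_mul]
    exact cl_congr (prC_mul n hh G)
  · intro m j x y hx hj
    change prH E m x = x at hx
    change prH E j (x * y) = 0
    obtain ⟨F, hF, hd, hh, rfl⟩ := hom_rep hx
    obtain ⟨G, hG, hd', rfl⟩ := cl_surj y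
    rw [cl_mul, prH_cl, ← cl_zero]
    exact cl_congr (prC_mul_lt hj hh G)
  · intro n F hF hd hh
    change prH E n (cl E F hF hd) = _
    rw [prH_cl]
    exact cl_congr (prC_of_hom hh)
  · intro n x hx
    exact hom_rep hx

end Q121.FK
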