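import Pool.Agent.Q30.FK.Stm2

/-!
# One step of the chain of the unipotent subgroups
-/

namespace Q121.FK

open Q30.FK Finset

variable {k : Type} [Field k] [CharP k 2]

section Shift

variable {A : Type} [CommRing A]

theorem shift_sq (y : A) : (T4.xx + T4.inc y : T4 A) ^ 2 = ⟨y ^ 2, 2 * y, 1, 0⟩ := by
  rw [pow_two]
  ext <;> simp [T4.xx, T4.inc_apply] <;> ring

theorem shift_cube (y : A) :
    (T4.xx + T4.inc y : T4 A) ^ 3 = ⟨y ^ 3, 3 * y ^ 2, 3 * y, 1⟩ := by
  rw [pow_succ, shift_sq]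
  ext <;> simp [T4.xx, T4.inc_apply] <;> ring

theorem shift_c1 (a b c d y : A) : (T4.inc a + T4.inc b * (T4.xx + T4.inc y) +
    T4.inc c * (T4.xx + T4.inc y) ^ 2 + T4.inc d * (T4.xx + T4.inc y) ^ 3 : T4 A).c1 =
      b + 2 * c * y + 3 * d * y ^ 2 := by
  rw [shift_sq, shift_cube]
  simp [T4.xx, T4.inc_apply]
  ring

theorem shift_c2 (a b c d y : A) : (T4.inc a + T4.inc b * (T4.xx + T4.inc y) +
    T4.inc c * (T4.xx + T4.inc y) ^ 2 + T4.inc d * (T4.xx + T4.inc y) ^ 3 : T4 A).c2 =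
      c + 3 * d * y := by
  rw [shift_sq, shift_cube]
  simp [T4.xx, T4.inc_apply]
  ring

theorem sq_c2 (a b c d : A) : (T4.inc a + T4.inc b * T4.xx ^ 2 +
    T4.inc c * (T4.xx ^ 2) ^ 2 + T4.inc d * (T4.xx ^ 2) ^ 3 : T4 A).c2 = b := by
  have h4 : (T4.xx ^ 2 : T4 A) ^ 2 = 0 := by rw [← pow_mul, T4.xx_four]
  have h6 : (T4.xx ^ 2 : T4 A) ^ 3 = 0 := by rw [pow_succ, h4, zero_mul]
  rw [h4, h6, T4.xx_two]
  simp [T4.inc_apply]

end Shift

/-- The value of a cochain after a translation, over a bigger algebra. -/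
theorem trans_gen (p : Path k) (F : Ch k) {X Y : Alg k} (φ : X.A →ₐ[k] Y.A) (n : ℕ)
    (g : ℕ → Bor X) (y : Y.A) (hy : y ^ 4 = 0) :
    F.1 Y n (fun i => p.h Y y hy * Bor.map φ (g i)) =
      φ ((tr p 0 F).1 X n g) + φ ((tr p 1 F).1 X n g) * y + φ ((tr p 2 F).1 X n g) * y ^ 2 +
        φ ((tr p 3 F).1 X n g) * y ^ 3 := by
  rw [trans_apply p F n (fun i => Bor.map φ (g i)) y hy, (tr p 0 F).2.1 X Y φ n g,
    (tr p 1 F).2.1 X Y φ n g, (tr p 2 F).2.1 X Y φ n g, (tr p 3 F).2.1 X Y φ n g]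

theorem path_zero (p : Path k) (X : Alg k) (h0 : (0 : X.A) ^ 4 = 0) : p.h X 0 h0 = 1 := by
  have h00 : ((0 : X.A) + 0) ^ 4 = 0 := by rw [add_zero]; exact h0
  have h := p.add X 0 0 h0 h0 h00
  have e : p.h X (0 + 0) h00 = p.h X 0 h0 := by
    have : ∀ (z : X.A) (hz : z ^ 4 = 0), z = 0 → p.h X z hz = p.h X 0 h0 := by
      intro z hz e
      subst e
      rfl
    exact this _ h00 (add_zero 0)
  rw [e] at h
  exact left_eq_mul.mp h

theorem tr_zero_eq (p : Path k) (F : Ch k) (X : Alg k) (n : ℕ) (g : ℕ → Bor X) :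
    (tr p 0 F).1 X n g = F.1 X n g := by
  have h0 : (0 : X.A) ^ 4 = 0 := by norm_num
  have h := trans_apply p F n g (0 : X.A) h0
  rw [path_zero] at h
  simp only [one_mul] at h
  rw [h]
  ring

theorem add_four_zero (X : Alg k) {x y : X.A} (hx : x ^ 4 = 0) (hy : y ^ 4 = 0) :
    (x + y) ^ 4 = 0 := by
  rw [add_pow_four, hx, hy, add_zero]

omit [CharP k 2] in
theorem inc_four (X : Alg k) {y : X.A} (hy : y ^ 4 = 0) : incA X y ^ 4 = 0 := by
  rw [← map_pow, hy, map_zero]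

theorem tr_shift (p : Path k) (F : Ch k) (j : ℕ) (X : Alg k) (n : ℕ) (g : ℕ → Bor X) (y : X.A)
    (hy : y ^ 4 = 0) : (tr p j F).1 X n (fun i => p.h X y hy * g i) =
      cfA X j (incA X ((tr p 0 F).1 X n g) + incA X ((tr p 1 F).1 X n g) * (xA X + incA X y) +
        incA X ((tr p 2 F).1 X n g) * (xA X + incA X y) ^ 2 +
        incA X ((tr p 3 F).1 X n g) * (xA X + incA X y) ^ 3) := by
  have hs : (xA X + incA X y) ^ 4 = 0 := add_four_zero (t4 X) (xA_four X) (inc_four X hy)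
  rw [tr_apply, ← trans_gen p F (incA X) n g (xA X + incA X y) hs]
  refine congrArg (fun s => cfA X j (F.1 (t4 X) n s)) ?_
  funext i
  rw [p.add (t4 X) (xA X) (incA X y) (xA_four X) (inc_four X hy) hs]
  unfold Path.tg
  rw [map_mul, p.nat X (t4 X) (incA X) y hy (inc_four X hy), mul_assoc]

theorem tr1_shift (p : Path k) (F : Ch k) (X : Alg k) (n : ℕ) (g : ℕ → Bor X) (y : X.A)
    (hy : y ^ 4 = 0) : (tr p 1 F).1 X n (fun i => p.h X y hy * g i) =
      (tr p 1 F).1 X n g + 3 * (tr p 3 F).1 X n g * y ^ 2 := by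
  rw [tr_shift]
  refine (shift_c1 _ _ _ _ _).trans ?_
  rw [two_zero]
  ring

theorem tr2_shift (p : Path k) (F : Ch k) (X : Alg k) (n : ℕ) (g : ℕ → Bor X) (y : X.A)
    (hy : y ^ 4 = 0) : (tr p 2 F).1 X n (fun i => p.h X y hy * g i) =
      (tr p 2 F).1 X n g + 3 * (tr p 3 F).1 X n g * y := by
  rw [tr_shift]
  exact shift_c2 _ _ _ _ _

/-- Invariance of the coefficients of the translation. -/
theorem tr_inv (p : Path k) {E : ∀ X : Alg k, Set (Bor X)}
    (H2 : ∀ X : Alg k, ∀ e ∈ E X, ∃ e' ∈ E (t4 X), p.h (t4 X) (xA X) (xA_four X) *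
      Bor.map (incA X) e = e' * p.h (t4 X) (xA X) (xA_four X)) (j : ℕ) {F : Ch k}
    (hF : F ∈ inv k E) : tr p j F ∈ inv k E := by
  intro X e he n g
  obtain ⟨e', he', h⟩ := H2 X e he
  rw [tr_apply, tr_apply]
  congr 1
  have e1 : p.tg X (fun i => e * g i) = fun i => e' * p.tg X g i := by
    funext i
    unfold Path.tg
    rw [map_mul, ← mul_assoc, h, mul_assoc]
  rw [e1]
  exact hF (t4 X) e' he' n (p.tg X g)

theorem hom_zero_mul {l : Ch k} (hl : Hom 0 l) (G : Ch k) (X : Alg k) (n : ℕ) (g : ℕ → Bor X) :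
    (l * G).1 X n g = l.1 X 0 g * G.1 X n g := by
  rw [coe_mul_apply, sum_eq_single (0, n)]
  · rfl
  · rintro ⟨i, j⟩ h hne
    rw [HasAntidiagonal.mem_antidiagonal] at h
    rw [hl X i g, zero_mul]
    rintro rfl
    apply hne
    simp only at h
    rw [← h, zero_add]
  · intro h
    exact absurd (by simp) h

/-- The abstract even step. -/
theorem step_even_abs (p : Path k) (E E' : ∀ X : Alg k, Set (Bor X)) (l : Ch k)
    (hl : Hom 0 l)
    (H1 : ∀ X : Alg k, ∀ h ∈ E' X, ∃ (y : X.A) (hy : y ^ 4 = 0) (e : Bor X), y ^ 2 = 0 ∧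
      (e = 1 ∨ e ∈ E X) ∧ h = p.h X y hy * e ∧
      ∀ g : ℕ → Bor X, l.1 X 0 (fun i => h * g i) = y + l.1 X 0 g)
    (H2 : ∀ X : Alg k, ∀ e ∈ E X, ∃ e' ∈ E (t4 X), p.h (t4 X) (xA X) (xA_four X) *
      Bor.map (incA X) e = e' * p.h (t4 X) (xA X) (xA_four X))
    (H3 : ∀ (X : Alg k) (y : X.A) (hy : y ^ 4 = 0), y ^ 2 = 0 → p.h X y hy ∈ E' X) :
    ∃ D : Ch k →+ Ch k,
      (∀ F ∈ inv k E, D F ∈ inv k E') ∧
      (∀ F ∈ inv k E, F - l * D F ∈ inv k E') ∧
      (∀ F ∈ inv k E', D F = 0) ∧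
      (∀ F, dCh (D F) = D (dCh F)) := by
  have tinv : ∀ F ∈ inv k E, ∀ j (X : Alg k) (e : Bor X), (e = 1 ∨ e ∈ E X) →
      ∀ n (g : ℕ → Bor X), (tr p j F).1 X n (fun i => e * g i) = (tr p j F).1 X n g := by
    intro F hF j X e he n g
    rcases he with rfl | he
    · simp only [one_mul]
    · exact tr_inv p H2 j hF X e he n g
  have D1 : ∀ F ∈ inv k E, tr p 1 F ∈ inv k E' := by
    intro F hF X h hh n g
    obtain ⟨y, hy, e, hy2, he, rfl, _⟩ := H1 X h hh
    have e1 : (fun i => p.h X y hy * e * g i) = fun i => p.h X y hy * (e * g i) := by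
      funext i
      rw [mul_assoc]
    rw [e1, tr1_shift p F X n (fun i => e * g i) y hy, hy2, mul_zero, add_zero,
      tinv F hF 1 X e he]
  refine ⟨tr p 1, D1, ?_, ?_, fun F => tr_dCh p 1 F⟩
  · intro F hF X h hh n g
    have hD := D1 F hF X h hh n g
    obtain ⟨y, hy, e, hy2, he, hhe, hlg⟩ := H1 X h hh
    rw [coe_sub_apply, coe_sub_apply, hom_zero_mul hl, hom_zero_mul hl, hD, hlg]
    have e1 : (fun i => h * g i) = fun i => p.h X y hy * (e * g i) := by
      funext i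
      rw [hhe, mul_assoc]
    rw [e1, trans_apply p F n (fun i => e * g i) y hy, tinv F hF 0 X e he, tinv F hF 1 X e he,
      tr_zero_eq]
    have hy3 : y ^ 3 = 0 := by rw [pow_succ, hy2, zero_mul]
    rw [hy2, hy3]
    ring
  · intro F hF
    refine ch_ext (fun X n g => ?_)
    rw [coe_zero_apply]
    have hx2 : (xA X ^ 2) ^ 2 = 0 := by rw [← pow_mul]; exact xA_four X
    have hx4 : (xA X ^ 2) ^ 4 = 0 := by
      rw [show 4 = 2 * 2 from rfl, pow_mul, hx2]
      exact zero_pow (by norm_num)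
    have h1 := trans_gen p F (incA X) n g (xA X ^ 2) hx4
    rw [hF (t4 X) _ (H3 (t4 X) (xA X ^ 2) hx4 hx2), ← F.2.1 X (t4 X) (incA X) n g] at h1
    have h2 : (incA X (F.1 X n g) : T4 X.A).c2 = (tr p 1 F).1 X n g := by
      rw [h1]
      exact sq_c2 _ _ _ _
    rw [← h2]
    rfl

/-- The coefficients of odd powers vanish for the cochains which are invariant under the
elements with `y ^ 2 = 0`. -/
theorem tr_odd (p : Path k) {E : ∀ X : Alg k, Set (Bor X)}
    (H4 : ∀ (X : Alg k) (y : X.A) (hy : y ^ 4 = 0), y ^ 2 = 0 → p.h X y hy ∈ E X)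
    {F : Ch k} (hF : F ∈ inv k E) (X : Alg k) (n : ℕ) (g : ℕ → Bor X) :
    (tr p 1 F).1 X n g = 0 ∧ (tr p 3 F).1 X n g = 0 := by
  -- the second extension
  have hz2 : (xA (t4 X) ^ 2) ^ 2 = 0 := by rw [← pow_mul]; exact xA_four (t4 X)
  have hz4 : (xA (t4 X) ^ 2) ^ 4 = 0 := by
    rw [show 4 = 2 * 2 from rfl, pow_mul, hz2]
    exact zero_pow (by norm_num)
  have hx4 : (incA (t4 X) (xA X)) ^ 4 = 0 := inc_four (t4 X) (xA_four X)
  have hs4 : (xA (t4 X) ^ 2 + incA (t4 X) (xA X)) ^ 4 = 0 :=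
    add_four_zero (t4 (t4 X)) hz4 hx4
  have h1 := trans_gen p F ((incA (t4 X)).comp (incA X)) n g (incA (t4 X) (xA X)) hx4
  have h2 := trans_gen p F ((incA (t4 X)).comp (incA X)) n g
    (xA (t4 X) ^ 2 + incA (t4 X) (xA X)) hs4
  have e1 : (fun i => p.h (t4 (t4 X)) (xA (t4 X) ^ 2 + incA (t4 X) (xA X)) hs4 *
      Bor.map ((incA (t4 X)).comp (incA X)) (g i)) = fun i =>
      p.h (t4 (t4 X)) (xA (t4 X) ^ 2) hz4 * (p.h (t4 (t4 X)) (incA (t4 X) (xA X)) hx4 *
        Bor.map ((incA (t4 X)).comp (incA X)) (g i)) := by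
    funext i
    rw [p.add (t4 (t4 X)) _ _ hz4 hx4 hs4, mul_assoc]
  rw [e1, hF (t4 (t4 X)) _ (H4 (t4 (t4 X)) _ hz4 hz2), h1] at h2
  simp only [AlgHom.comp_apply] at h2
  set P0 := (tr p 0 F).1 X n g with hP0
  set P1 := (tr p 1 F).1 X n g with hP1
  set P2 := (tr p 2 F).1 X n g with hP2
  set P3 := (tr p 3 F).1 X n g with hP3
  have h3 : incA (t4 X) (incA X P1 + 3 * incA X P3 * xA X ^ 2) * xA (t4 X) ^ 2 = 0 := by
    have h2z : (2 : (t4 (t4 X)).A) = 0 := two_zero (t4 (t4 X))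
    have hz3 : (xA (t4 X) ^ 2) ^ 3 = 0 := by rw [pow_succ, hz2, zero_mul]
    rw [map_add, map_mul, map_mul, map_pow, map_ofNat]
    linear_combination -h2 +
      (-(incA (t4 X) (incA X P2)) - 3 * incA (t4 X) (incA X P3) * incA (t4 X) (xA X)) * hz2 -
      incA (t4 X) (incA X P3) * hz3 -
      incA (t4 X) (incA X P2) * incA (t4 X) (xA X) * xA (t4 X) ^ 2 * h2z
  have h4 : incA X P1 + 3 * incA X P3 * xA X ^ 2 = 0 := by
    have h5 : cfA (t4 X) 2 (incA (t4 X) (incA X P1 + 3 * incA X P3 * xA X ^ 2) *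
        xA (t4 X) ^ 2) = 0 := by rw [h3, map_zero]
    rw [cfA_inc_mul] at h5
    have h6 : cfA (t4 X) 2 (xA (t4 X) ^ 2) = 1 := congrArg T4.c2 T4.xx_two
    rwa [h6, mul_one] at h5
  have h7 : (T4.inc P1 + 3 * T4.inc P3 * T4.xx ^ 2 : T4 X.A) = 0 := h4
  have h3' : (3 : T4 X.A) = T4.inc 3 := by rw [map_ofNat]
  rw [h3', ← map_mul] at h7
  have h8 := congrArg T4.c0 h7
  have h9 := congrArg T4.c2 h7
  rw [T4.xx_two] at h8 h9
  simp [T4.inc_apply] at h8 h9
  refine ⟨h8, ?_⟩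
  have h2x := two_zero X
  linear_combination h9 - P3 * h2x

/-- The abstract odd step. -/
theorem step_odd_abs (p : Path k) (E E' : ∀ X : Alg k, Set (Bor X)) (l : Ch k)
    (hl : Hom 0 l)
    (H1 : ∀ X : Alg k, ∀ h ∈ E' X, ∃ (y : X.A) (hy : y ^ 4 = 0) (e : Bor X),
      (e = 1 ∨ e ∈ E X) ∧ h = p.h X y hy * e ∧
      ∀ g : ℕ → Bor X, l.1 X 0 (fun i => h * g i) = y ^ 2 + l.1 X 0 g)
    (H2 : ∀ X : Alg k, ∀ e ∈ E X, ∃ e' ∈ E (t4 X), p.h (t4 X) (xA X) (xA_four X) *
      Bor.map (incA X) e = e' * p.h (t4 X) (xA X) (xA_four X))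
    (H3 : ∀ (X : Alg k) (y : X.A) (hy : y ^ 4 = 0), p.h X y hy ∈ E' X)
    (H4 : ∀ (X : Alg k) (y : X.A) (hy : y ^ 4 = 0), y ^ 2 = 0 → p.h X y hy ∈ E X) :
    ∃ D : Ch k →+ Ch k,
      (∀ F ∈ inv k E, D F ∈ inv k E') ∧
      (∀ F ∈ inv k E, F - l * D F ∈ inv k E') ∧
      (∀ F ∈ inv k E', D F = 0) ∧
      (∀ F, dCh (D F) = D (dCh F)) := by
  have tinv : ∀ F ∈ inv k E, ∀ j (X : Alg k) (e : Bor X), (e = 1 ∨ e ∈ E X) →
      ∀ n (g : ℕ → Bor X), (tr p j F).1 X n (fun i => e * g i) = (tr p j F).1 X n g := by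
    intro F hF j X e he n g
    rcases he with rfl | he
    · simp only [one_mul]
    · exact tr_inv p H2 j hF X e he n g
  have D1 : ∀ F ∈ inv k E, tr p 2 F ∈ inv k E' := by
    intro F hF X h hh n g
    obtain ⟨y, hy, e, he, rfl, _⟩ := H1 X h hh
    have e1 : (fun i => p.h X y hy * e * g i) = fun i => p.h X y hy * (e * g i) := by
      funext i
      rw [mul_assoc]
    rw [e1, tr2_shift p F X n (fun i => e * g i) y hy, (tr_odd p H4 hF X n _).2, mul_zero,
      zero_mul, add_zero, tinv F hF 2 X e he]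
  refine ⟨tr p 2, D1, ?_, ?_, fun F => tr_dCh p 2 F⟩
  · intro F hF X h hh n g
    have hD := D1 F hF X h hh n g
    obtain ⟨y, hy, e, he, hhe, hlg⟩ := H1 X h hh
    rw [coe_sub_apply, coe_sub_apply, hom_zero_mul hl, hom_zero_mul hl, hD, hlg]
    have e1 : (fun i => h * g i) = fun i => p.h X y hy * (e * g i) := by
      funext i
      rw [hhe, mul_assoc]
    rw [e1, trans_apply p F n (fun i => e * g i) y hy, tinv F hF 0 X e he, tinv F hF 2 X e he,
      tr_zero_eq, (tr_odd p H4 hF X n _).1, (tr_odd p H4 hF X n _).2]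
    ring
  · intro F hF
    refine ch_ext (fun X n g => ?_)
    rw [coe_zero_apply, tr_apply]
    unfold Path.tg
    rw [hF (t4 X) _ (H3 (t4 X) (xA X) (xA_four X)), ← F.2.1 X (t4 X) (incA X) n g]
    rfl

/-! ### The three one-parameter subgroups -/

theorem bor_ext6 {X : Alg k} {g h : Bor X} (h00 : g.1 0 0 = h.1 0 0) (h11 : g.1 1 1 = h.1 1 1)
    (h22 : g.1 2 2 = h.1 2 2) (h01 : g.1 0 1 = h.1 0 1) (h12 : g.1 1 2 = h.1 1 2)
    (h02 : g.1 0 2 = h.1 0 2) : g = h := by
  refine bor_ext (fun i j => ?_)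
  fin_cases i <;> fin_cases j
  · exact h00
  · exact h01
  · exact h02
  · exact (b10 g).trans (b10 h).symm
  · exact h11
  · exact h12
  · exact (b20 g).trans (b20 h).symm
  · exact (b21 g).trans (b21 h).symm
  · exact h22

section Entries

variable {X : Alg k} (a b c : X.A) (ha : a ^ 4 = 0) (hb : b ^ 4 = 0) (hc : c ^ 4 = 0)

theorem uu00 : (uu a b c ha hb hc).1 0 0 = 1 := rfl
theorem uu11 : (uu a b c ha hb hc).1 1 1 = 1 := rfl
theorem uu22 : (uu a b c ha hb hc).1 2 2 = 1 := rfl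
theorem uu01 : (uu a b c ha hb hc).1 0 1 = a := rfl
theorem uu12 : (uu a b c ha hb hc).1 1 2 = b := rfl
theorem uu02 : (uu a b c ha hb hc).1 0 2 = c := rfl

end Entries

omit [CharP k 2] in
theorem z4 (X : Alg k) : (0 : X.A) ^ 4 = 0 := by norm_num

/-- The one-parameter subgroup of the root `a`. -/
def pA (k : Type) [Field k] [CharP k 2] : Path k where
  h X x hx := uu x 0 0 hx (z4 X) (z4 X)
  nat X Y φ x hx hy := by
    apply bor_ext6 <;> rw [map_entry] <;> simp only [uu00, uu11, uu22, uu01, uu12, uu02, map_one,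
      map_zero]
  add X x y hx hy hxy := by
    apply bor_ext6
    · rw [mul00]; simp only [uu00]; ring
    · rw [mul11]; simp only [uu11]; ring
    · rw [mul22]; simp only [uu22]; ring
    · rw [mul01]; simp only [uu00, uu11, uu01]; ring
    · rw [mul12]; simp only [uu22, uu11, uu12]; ring
    · rw [mul02]; simp only [uu00, uu22, uu01, uu12, uu02]; ring

/-- The one-parameter subgroup of the root `b`. -/
def pB (k : Type) [Field k] [CharP k 2] : Path k where
  h X x hx := uu 0 x 0 (z4 X) hx (z4 X)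
  nat X Y φ x hx hy := by
    apply bor_ext6 <;> rw [map_entry] <;> simp only [uu00, uu11, uu22, uu01, uu12, uu02, map_one,
      map_zero]
  add X x y hx hy hxy := by
    apply bor_ext6
    · rw [mul00]; simp only [uu00]; ring
    · rw [mul11]; simp only [uu11]; ring
    · rw [mul22]; simp only [uu22]; ring
    · rw [mul01]; simp only [uu00, uu11, uu01]; ring
    · rw [mul12]; simp only [uu22, uu11, uu12]; ring
    · rw [mul02]; simp only [uu00, uu22, uu01, uu12, uu02]; ring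

/-- The one-parameter subgroup of the root `c`. -/
def pC (k : Type) [Field k] [CharP k 2] : Path k where
  h X x hx := uu 0 0 x (z4 X) (z4 X) hx
  nat X Y φ x hx hy := by
    apply bor_ext6 <;> rw [map_entry] <;> simp only [uu00, uu11, uu22, uu01, uu12, uu02, map_one,
      map_zero]
  add X x y hx hy hxy := by
    apply bor_ext6
    · rw [mul00]; simp only [uu00]; ring
    · rw [mul11]; simp only [uu11]; ring
    · rw [mul22]; simp only [uu22]; ring
    · rw [mul01]; simp only [uu00, uu11, uu01]; ring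
    · rw [mul12]; simp only [uu22, uu11, uu12]; ring
    · rw [mul02]; simp only [uu00, uu22, uu01, uu12, uu02]; ring

theorem pA_h (X : Alg k) (x : X.A) (hx : x ^ 4 = 0) :
    (pA k).h X x hx = uu x 0 0 hx (z4 X) (z4 X) := rfl
theorem pB_h (X : Alg k) (x : X.A) (hx : x ^ 4 = 0) :
    (pB k).h X x hx = uu 0 x 0 (z4 X) hx (z4 X) := rfl
theorem pC_h (X : Alg k) (x : X.A) (hx : x ^ 4 = 0) :
    (pC k).h X x hx = uu 0 0 x (z4 X) (z4 X) hx := rfl

theorem ca_h {X : Alg k} {h : Bor X} (h00 : h.1 0 0 = 1) (h11 : h.1 1 1 = 1) (g : Bor X) :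
    ca (h * g) = h.1 0 1 + ca g := by
  rw [ca_mul]
  unfold ca wa
  rw [h00, h11]
  ring

theorem cb_h {X : Alg k} {h : Bor X} (h11 : h.1 1 1 = 1) (h22 : h.1 2 2 = 1) (g : Bor X) :
    cb (h * g) = h.1 1 2 + cb g := by
  rw [cb_mul]
  unfold cb wb
  rw [h11, h22]
  ring

theorem cc_h {X : Alg k} {h : Bor X} (h00 : h.1 0 0 = 1) (h11 : h.1 1 1 = 1)
    (h22 : h.1 2 2 = 1) (h01 : h.1 0 1 = 0) (g : Bor X) :
    cc (h * g) = h.1 0 2 + cc g := by
  rw [cc_mul]
  unfold cc wb wa ca cb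
  rw [h00, h11, h22, h01]
  ring

theorem fa_apply (X : Alg k) (g : ℕ → Bor X) : (fa k).1 X 0 g = ca (g 0) := rfl
theorem fb_apply (X : Alg k) (g : ℕ → Bor X) : (fb k).1 X 0 g = cb (g 0) := rfl
theorem fc_apply (X : Alg k) (g : ℕ → Bor X) : (fc k).1 X 0 g = cc (g 0) := rfl

theorem hom_fa : Hom 0 (fa k) := hom_fnN 0 _ _ _
theorem hom_fb : Hom 0 (fb k) := hom_fnN 0 _ _ _
theorem hom_fc : Hom 0 (fc k) := hom_fnN 0 _ _ _

theorem fc_fc_apply (X : Alg k) (g : ℕ → Bor X) :
    (fc k * fc k).1 X 0 g = cc (g 0) * cc (g 0) := by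
  rw [hom_zero_mul hom_fc]
  rfl
theorem fb_fb_apply (X : Alg k) (g : ℕ → Bor X) :
    (fb k * fb k).1 X 0 g = cb (g 0) * cb (g 0) := by
  rw [hom_zero_mul hom_fb]
  rfl
theorem fa_fa_apply (X : Alg k) (g : ℕ → Bor X) :
    (fa k * fa k).1 X 0 g = ca (g 0) * ca (g 0) := by
  rw [hom_zero_mul hom_fa]
  rfl

/-- The step from the trivial subgroup. -/
theorem step0 : P_STEP 0 := by
  intro k _ _
  refine step_even_abs (pC k) _ _ (fc k) hom_fc ?_ ?_ ?_
  · rintro X h ⟨h00, h11, h22, h01, h12, h02⟩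
    refine ⟨h.1 0 2, b02 h, 1, h02, Or.inl rfl, ?_, ?_⟩
    · rw [mul_one, pC_h]
      exact bor_ext6 h00 h11 h22 h01 h12 rfl
    · intro g
      rw [fc_apply, fc_apply]
      exact cc_h h00 h11 h22 h01 (g 0)
  · rintro X e he
    exact absurd he (Set.notMem_empty e)
  · intro X y hy hy2
    exact ⟨rfl, rfl, rfl, rfl, rfl, hy2⟩

theorem sq_add_eq {X : Alg k} (y z : X.A) : (y + z) * (y + z) = y ^ 2 + z * z := by
  linear_combination (y * z) * two_zero X

theorem step1 : P_STEP 1 := by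
  intro k _ _
  refine step_odd_abs (pC k) _ _ (fc k * fc k) (hom_fc.mul hom_fc) ?_ ?_ ?_ ?_
  · rintro X h ⟨h00, h11, h22, h01, h12⟩
    refine ⟨h.1 0 2, b02 h, 1, Or.inl rfl, ?_, ?_⟩
    · rw [mul_one, pC_h]
      exact bor_ext6 h00 h11 h22 h01 h12 rfl
    · intro g
      rw [fc_fc_apply, fc_fc_apply, cc_h h00 h11 h22 h01 (g 0), sq_add_eq]
  · rintro X e ⟨h00, h11, h22, h01, h12, h02⟩
    refine ⟨Bor.map (incA X) e, ⟨?_, ?_, ?_, ?_, ?_, ?_⟩, ?_⟩
    · rw [map_entry, h00, map_one]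
    · rw [map_entry, h11, map_one]
    · rw [map_entry, h22, map_one]
    · rw [map_entry, h01, map_zero]
    · rw [map_entry, h12, map_zero]
    · rw [map_entry, ← map_pow, h02, map_zero]
    · rw [pC_h]
      apply bor_ext6
      · simp only [mul00, uu00, map_entry, h00, map_one]
      · simp only [mul11, uu11, map_entry, h11, map_one]
      · simp only [mul22, uu22, map_entry, h22, map_one]
      · simp only [mul01, uu00, uu01, uu11, map_entry, h00, h11, h01, map_one, map_zero]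
      · simp only [mul12, uu11, uu12, uu22, map_entry, h11, h22, h12, map_one, map_zero]
      · simp only [mul02, uu00, uu01, uu12, uu02, uu22, map_entry, h00, h22, h01, h12, map_one,
          map_zero]
        ring
  · intro X y hy
    exact ⟨rfl, rfl, rfl, rfl, rfl⟩
  · intro X y hy hy2
    exact ⟨rfl, rfl, rfl, rfl, rfl, hy2⟩

theorem step2 : P_STEP 2 := by
  intro k _ _
  refine step_even_abs (pB k) _ _ (fb k) hom_fb ?_ ?_ ?_
  · rintro X h ⟨h00, h11, h22, h01, h12⟩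
    refine ⟨h.1 1 2, b12 h, uu 0 0 (h.1 0 2) (z4 X) (z4 X) (b02 h), h12, Or.inr ?_, ?_, ?_⟩
    · exact ⟨rfl, rfl, rfl, rfl, rfl⟩
    · rw [pB_h]
      apply bor_ext6
      · simp only [mul00, uu00, h00, mul_one]
      · simp only [mul11, uu11, h11, mul_one]
      · simp only [mul22, uu22, h22, mul_one]
      · simp only [mul01, uu00, uu01, uu11, h01]
        ring
      · simp only [mul12, uu11, uu12, uu22]
        ring
      · simp only [mul02, uu00, uu01, uu12, uu02, uu22]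
        ring
    · intro g
      rw [fb_apply, fb_apply]
      exact cb_h h11 h22 (g 0)
  · rintro X e ⟨h00, h11, h22, h01, h12⟩
    refine ⟨Bor.map (incA X) e, ⟨?_, ?_, ?_, ?_, ?_⟩, ?_⟩
    · rw [map_entry, h00, map_one]
    · rw [map_entry, h11, map_one]
    · rw [map_entry, h22, map_one]
    · rw [map_entry, h01, map_zero]
    · rw [map_entry, h12, map_zero]
    · rw [pB_h]
      apply bor_ext6
      · simp only [mul00, uu00, map_entry, h00, map_one]
      · simp only [mul11, uu11, map_entry, h11, map_one]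
      · simp only [mul22, uu22, map_entry, h22, map_one]
      · simp only [mul01, uu00, uu01, uu11, map_entry, h00, h11, h01, map_one, map_zero]
      · simp only [mul12, uu11, uu12, uu22, map_entry, h11, h22, h12, map_one, map_zero]
        ring
      · simp only [mul02, uu00, uu01, uu12, uu02, uu22, map_entry, h00, h22, h01, h12, map_one,
          map_zero]
        ring
  · intro X y hy hy2
    exact ⟨rfl, rfl, rfl, rfl, hy2⟩

theorem step3 : P_STEP 3 := by
  intro k _ _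
  refine step_odd_abs (pB k) _ _ (fb k * fb k) (hom_fb.mul hom_fb) ?_ ?_ ?_ ?_
  · rintro X h ⟨h00, h11, h22, h01⟩
    refine ⟨h.1 1 2, b12 h, uu 0 0 (h.1 0 2) (z4 X) (z4 X) (b02 h), Or.inr ?_, ?_, ?_⟩
    · exact ⟨rfl, rfl, rfl, rfl, by rw [uu12]; norm_num⟩
    · rw [pB_h]
      apply bor_ext6
      · simp only [mul00, uu00, h00, mul_one]
      · simp only [mul11, uu11, h11, mul_one]
      · simp only [mul22, uu22, h22, mul_one]
      · simp only [mul01, uu00, uu01, uu11, h01]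
        ring
      · simp only [mul12, uu11, uu12, uu22]
        ring
      · simp only [mul02, uu00, uu01, uu12, uu02, uu22]
        ring
    · intro g
      rw [fb_fb_apply, fb_fb_apply, cb_h h11 h22 (g 0), sq_add_eq]
  · rintro X e ⟨h00, h11, h22, h01, h12⟩
    refine ⟨Bor.map (incA X) e, ⟨?_, ?_, ?_, ?_, ?_⟩, ?_⟩
    · rw [map_entry, h00, map_one]
    · rw [map_entry, h11, map_one]
    · rw [map_entry, h22, map_one]
    · rw [map_entry, h01, map_zero]
    · rw [map_entry, ← map_pow, h12, map_zero]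
    · rw [pB_h]
      apply bor_ext6
      · simp only [mul00, uu00, map_entry, h00, map_one]
      · simp only [mul11, uu11, map_entry, h11, map_one]
      · simp only [mul22, uu22, map_entry, h22, map_one]
      · simp only [mul01, uu00, uu01, uu11, map_entry, h00, h11, h01, map_one, map_zero]
      · simp only [mul12, uu11, uu12, uu22, map_entry, h11, h22, map_one]
        ring
      · simp only [mul02, uu00, uu01, uu12, uu02, uu22, map_entry, h00, h22, h01, map_one,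
          map_zero]
        ring
  · intro X y hy
    exact ⟨rfl, rfl, rfl, rfl⟩
  · intro X y hy hy2
    exact ⟨rfl, rfl, rfl, rfl, hy2⟩

theorem corr_four {X : Alg k} (h : Bor X) : (h.1 0 2 - h.1 0 1 * h.1 1 2) ^ 4 = 0 := by
  have h1 := add_pow_four X (h.1 0 2) (-(h.1 0 1 * h.1 1 2))
  rw [← sub_eq_add_neg] at h1
  rw [h1]
  linear_combination b02 h + (h.1 1 2 ^ 4) * b01 h

theorem step4 : P_STEP 4 := by
  intro k _ _
  refine step_even_abs (pA k) _ _ (fa k) hom_fa ?_ ?_ ?_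
  · rintro X h ⟨h00, h11, h22, h01⟩
    refine ⟨h.1 0 1, b01 h, uu 0 (h.1 1 2) (h.1 0 2 - h.1 0 1 * h.1 1 2) (z4 X) (b12 h)
      (corr_four h), h01, Or.inr ?_, ?_, ?_⟩
    · exact ⟨rfl, rfl, rfl, rfl⟩
    · rw [pA_h]
      apply bor_ext6
      · simp only [mul00, uu00, h00, mul_one]
      · simp only [mul11, uu11, h11, mul_one]
      · simp only [mul22, uu22, h22, mul_one]
      · simp only [mul01, uu00, uu01, uu11]
        ring
      · simp only [mul12, uu11, uu12, uu22]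
        ring
      · simp only [mul02, uu00, uu01, uu12, uu02, uu22]
        ring
    · intro g
      rw [fa_apply, fa_apply]
      exact ca_h h00 h11 (g 0)
  · rintro X e ⟨h00, h11, h22, h01⟩
    have hb : (incA X (e.1 1 2)) ^ 4 = 0 := inc_four X (b12 e)
    have hc : (incA X (e.1 0 2) + xA X * incA X (e.1 1 2)) ^ 4 = 0 :=
      add_four_zero (t4 X) (inc_four X (b02 e)) (by rw [mul_pow, hb, mul_zero])
    refine ⟨uu 0 (incA X (e.1 1 2)) (incA X (e.1 0 2) + xA X * incA X (e.1 1 2)) (z4 (t4 X)) hb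
      hc, ⟨rfl, rfl, rfl, rfl⟩, ?_⟩
    rw [pA_h]
    apply bor_ext6
    · simp only [mul00, uu00, map_entry, h00, map_one]
    · simp only [mul11, uu11, map_entry, h11, map_one]
    · simp only [mul22, uu22, map_entry, h22, map_one]
    · simp only [mul01, uu00, uu01, uu11, map_entry, h11, h01, map_one, map_zero]
      ring
    · simp only [mul12, uu11, uu12, uu22, map_entry, h22, map_one]
      ring
    · simp only [mul02, uu00, uu01, uu12, uu02, uu22, map_entry, h22, map_one]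
      ring
  · intro X y hy hy2
    exact ⟨rfl, rfl, rfl, hy2⟩

theorem step5 : P_STEP 5 := by
  intro k _ _
  refine step_odd_abs (pA k) _ _ (fa k * fa k) (hom_fa.mul hom_fa) ?_ ?_ ?_ ?_
  · rintro X h ⟨h00, h11, h22⟩
    refine ⟨h.1 0 1, b01 h, uu 0 (h.1 1 2) (h.1 0 2 - h.1 0 1 * h.1 1 2) (z4 X) (b12 h)
      (corr_four h), Or.inr ?_, ?_, ?_⟩
    · exact ⟨rfl, rfl, rfl, by rw [uu01]; norm_num⟩
    · rw [pA_h]
      apply bor_ext6
      · simp only [mul00, uu00, h00, mul_one]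
      · simp only [mul11, uu11, h11, mul_one]
      · simp only [mul22, uu22, h22, mul_one]
      · simp only [mul01, uu00, uu01, uu11]
        ring
      · simp only [mul12, uu11, uu12, uu22]
        ring
      · simp only [mul02, uu00, uu01, uu12, uu02, uu22]
        ring
    · intro g
      rw [fa_fa_apply, fa_fa_apply, ca_h h00 h11 (g 0), sq_add_eq]
  · rintro X e ⟨h00, h11, h22, h01⟩
    have ha : (incA X (e.1 0 1)) ^ 4 = 0 := inc_four X (b01 e)
    have hb : (incA X (e.1 1 2)) ^ 4 = 0 := inc_four X (b12 e)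
    have hc : (incA X (e.1 0 2) + xA X * incA X (e.1 1 2)) ^ 4 = 0 :=
      add_four_zero (t4 X) (inc_four X (b02 e)) (by rw [mul_pow, hb, mul_zero])
    refine ⟨uu (incA X (e.1 0 1)) (incA X (e.1 1 2))
      (incA X (e.1 0 2) + xA X * incA X (e.1 1 2)) ha hb hc, ⟨rfl, rfl, rfl, ?_⟩, ?_⟩
    · rw [uu01, ← map_pow, h01, map_zero]
    · rw [pA_h]
      apply bor_ext6
      · simp only [mul00, uu00, map_entry, h00, map_one]
      · simp only [mul11, uu11, map_entry, h11, map_one]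
      · simp only [mul22, uu22, map_entry, h22, map_one]
      · simp only [mul01, uu00, uu01, uu11, map_entry, h11, map_one]
        ring
      · simp only [mul12, uu11, uu12, uu22, map_entry, h22, map_one]
        ring
      · simp only [mul02, uu00, uu01, uu12, uu02, uu22, map_entry, h22, map_one]
        ring
  · intro X y hy
    exact ⟨rfl, rfl, rfl⟩
  · intro X y hy hy2
    exact ⟨rfl, rfl, rfl, hy2⟩

end Q121.FK
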